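import Mathlib
import Pool.Agent.CLP.IsoNum
import Pool.Agent.Helper17.SumsetHalf.Cover

namespace Pool.Agent.Results.MP_ba46be_co.DensityCodim

open Finset Pointwise
open Pool.Agent.Helper17.SumsetHalf (Cov cov_of_greedy exists_subspace add_self_two chi parseval)
open Pool.Agent.CLP.Iso (average ind_var ind_var_two choice ts ts_pos sum_chi_card)

variable {n : ℕ}

/-- One-dimensional cubes. -/
private theorem bound_one (A E : Finset (Fin n → ZMod 2)) (hne : A.Nonempty) (hE : E.Nonempty)
    (hAE : ∀ a ∈ A, ∀ d ∈ E, a + d ∉ A) {lam : ℝ}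
    (ha2 : (A.card : ℝ) / 2 ^ n ≤ 1 / 2)
    (hq : ∀ r : Fin n → ZMod 2, lam * E.card ≤ ((E.filter fun d => r ⬝ᵥ d = 0).card : ℝ)) :
    lam ≤ (1 - 2 * ((A.card : ℝ) / 2 ^ n)) / (2 - 2 * ((A.card : ℝ) / 2 ^ n)) := by
  classical
  have hN : (0 : ℝ) < 2 ^ n := by positivity
  have hE0 : (0 : ℝ) < E.card := by exact_mod_cast hE.card_pos
  have hA0 : (0 : ℝ) < A.card := by exact_mod_cast hne.card_pos
  let f : (Fin n → ZMod 2) → ℝ := fun x => if x ∈ A then 1 else 0
  let F : (Fin n → ZMod 2) → ℝ := fun r => ∑ x, f x * chi r x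
  have hf : ∑ x, f x = A.card := by
    simp only [f]
    rw [← sum_filter, filter_univ_mem]
    simp
  have hpar : ∑ r, F r ^ 2 = 2 ^ n * A.card := by
    have h7 := parseval f 0
    have h8 : ∀ r : Fin n → ZMod 2, chi r 0 = 1 := by intro r; simp [chi]
    simp only [h8, mul_one, add_zero] at h7
    rw [h7, ← hf]
    congr 1
    refine sum_congr rfl fun x _ => ?_
    simp only [f]
    split_ifs <;> norm_num
  have hd0 : ∀ d ∈ E, ∑ r, F r ^ 2 * chi r d = 0 := by
    intro d hd
    rw [parseval f d]
    have : ∀ x, f x * f (x + d) = 0 := by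
      intro x
      by_cases h : x ∈ A
      · simp [f, hAE x h d hd]
      · simp [f, h]
    simp [this]
  let N : (Fin n → ZMod 2) → ℝ := fun r => ((E.filter fun d => r ⬝ᵥ d = 0).card : ℝ)
  have htot : ∑ r, F r ^ 2 * (2 * N r - E.card) = 0 := by
    simp only [N, ← sum_chi_card, mul_sum]
    rw [sum_comm]
    exact sum_eq_zero hd0
  have hF0 : F 0 = A.card := by
    simp only [F]
    rw [← hf]
    refine sum_congr rfl fun x _ => ?_
    simp [chi]
  have hN0 : N 0 = E.card := by
    simp [N]
  have h1 : ∑ r ∈ univ.erase (0 : Fin n → ZMod 2), F r ^ 2 * (2 * N r - E.card) =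
      - (A.card : ℝ) ^ 2 * E.card := by
    rw [← add_sum_erase univ _ (mem_univ (0 : Fin n → ZMod 2)), hF0, hN0] at htot
    linarith
  have h2 : ∑ r ∈ univ.erase (0 : Fin n → ZMod 2), F r ^ 2 =
      2 ^ n * A.card - (A.card : ℝ) ^ 2 := by
    rw [← add_sum_erase univ _ (mem_univ (0 : Fin n → ZMod 2)), hF0] at hpar
    linarith
  have h3 : (2 * lam - 1) * E.card * (2 ^ n * A.card - (A.card : ℝ) ^ 2) ≤
      - (A.card : ℝ) ^ 2 * E.card := by
    rw [← h1, ← h2, mul_sum]
    refine sum_le_sum fun r _ => ?_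
    rw [mul_comm]
    apply mul_le_mul_of_nonneg_left _ (sq_nonneg _)
    have := hq r
    simp only [N]
    linarith
  have h5 : (2 * lam - 1) * (2 ^ n - (A.card : ℝ)) ≤ - (A.card : ℝ) := by
    have : (A.card * E.card : ℝ) * ((2 * lam - 1) * (2 ^ n - (A.card : ℝ))) ≤
        (A.card * E.card : ℝ) * (- (A.card : ℝ)) := by
      calc _ = (2 * lam - 1) * E.card * (2 ^ n * A.card - (A.card : ℝ) ^ 2) := by ring
        _ ≤ - (A.card : ℝ) ^ 2 * E.card := h3
        _ = _ := by ring
    exact le_of_mul_le_mul_left this (by positivity)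
  set a : ℝ := (A.card : ℝ) / 2 ^ n with ha
  have haA : (A.card : ℝ) = a * 2 ^ n := by rw [ha, div_mul_cancel₀ _ hN.ne']
  rw [le_div_iff₀ (by linarith)]
  rw [haA] at h5
  have h6 : 2 ^ n * ((2 * lam - 1) * (1 - a)) ≤ 2 ^ n * (-a) := by linarith
  have h7 := le_of_mul_le_mul_left h6 hN
  linarith

/-- Let `A ⊆ F₂ⁿ` have density at least `α`, where `0 < α ≤ 1/2`, and let `p` be the minimum of
`(1 - 2α) / (2 - 2α)`, `(1 - 2α) / (4α)` and `6 (1 - 2α)²`. If `p^k * ∑_{j ≤ k} C(n, j) < 1`, then
the sumset `A + A` contains a linear subspace of codimension at most `k`. -/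
theorem result (n k : ℕ) (A : Finset (Fin n → ZMod 2)) (α : ℝ) (hα0 : 0 < α) (hα : α ≤ 1 / 2)
    (hA : α * (2 : ℝ) ^ n ≤ (A.card : ℝ))
    (hk : (min (min ((1 - 2 * α) / (2 - 2 * α)) ((1 - 2 * α) / (4 * α))) (6 * (1 - 2 * α) ^ 2)) ^ k *
      ∑ j ∈ range (k + 1), (n.choose j : ℝ) < 1) :
    ∃ V : Submodule (ZMod 2) (Fin n → ZMod 2),
      (∀ v ∈ V, v ∈ A + A) ∧ n ≤ Module.finrank (ZMod 2) V + k := by
  classical
  have hN : (0 : ℝ) < 2 ^ n := by positivity
  have hne : A.Nonempty := by
    rw [← card_pos]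
    have : (0 : ℝ) < A.card := lt_of_lt_of_le (by positivity) hA
    exact_mod_cast this
  set p : ℝ := min (min ((1 - 2 * α) / (2 - 2 * α)) ((1 - 2 * α) / (4 * α)))
    (6 * (1 - 2 * α) ^ 2) with hp
  have hp0 : 0 ≤ p := by
    rw [hp]
    refine le_min (le_min ?_ ?_) ?_
    · exact div_nonneg (by linarith) (by linarith)
    · exact div_nonneg (by linarith) (by linarith)
    · positivity
  let D : Finset (Fin n → ZMod 2) := univ \ (A + A)
  have hcov : Cov D k := by
    apply cov_of_greedy D hp0 _ k hk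
    intro E hED hE
    by_contra hcon
    push Not at hcon
    have hE0 : (0 : ℝ) < E.card := by exact_mod_cast hE.card_pos
    have hAE : ∀ a ∈ A, ∀ d ∈ E, a + d ∉ A := by
      intro a ha d hd had
      have h1 := hED hd
      simp only [D, mem_sdiff, mem_univ, true_and] at h1
      apply h1
      have : d = a + (a + d) := by rw [← add_assoc, add_self_two, zero_add]
      rw [this]
      exact add_mem_add ha had
    -- the best constant
    obtain ⟨r0, -, hr0⟩ := exists_min_image (univ : Finset (Fin n → ZMod 2))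
      (fun r => ((E.filter fun d => r ⬝ᵥ d = 0).card : ℝ)) ⟨0, mem_univ 0⟩
    set lam : ℝ := ((E.filter fun d => r0 ⬝ᵥ d = 0).card : ℝ) / E.card with hlam
    have hq : ∀ r : Fin n → ZMod 2,
        lam * E.card ≤ ((E.filter fun d => r ⬝ᵥ d = 0).card : ℝ) := by
      intro r
      rw [hlam, div_mul_cancel₀ _ hE0.ne']
      exact hr0 r (mem_univ r)
    have hplam : p < lam := by
      rw [hlam, lt_div_iff₀ hE0]
      exact hcon r0
    -- the density
    set a : ℝ := (A.card : ℝ) / 2 ^ n with ha
    have haα : α ≤ a := by rw [ha, le_div_iff₀ hN]; exact hA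
    have ha0 : 0 < a := lt_of_lt_of_le hα0 haα
    have ha2 : a ≤ 1 / 2 := by
      obtain ⟨d, hd⟩ := hE
      have hinj : Function.Injective fun a : Fin n → ZMod 2 => a + d := add_left_injective d
      have hdis : Disjoint A (A.image fun a => a + d) := by
        rw [disjoint_left]
        intro x hx hx'
        rw [mem_image] at hx'
        obtain ⟨a, ha, rfl⟩ := hx'
        exact hAE a ha d hd hx
      have h1 := card_le_univ (A ∪ A.image fun a => a + d)
      rw [card_union_of_disjoint hdis, card_image_of_injective _ hinj, Fintype.card_fun,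
        ZMod.card, Fintype.card_fin] at h1
      have h2 : (A.card : ℝ) + A.card ≤ 2 ^ n := by exact_mod_cast h1
      rw [ha, div_le_iff₀ hN]
      linarith
    -- the three bounds
    have b1 : lam ≤ (1 - 2 * α) / (2 - 2 * α) := by
      refine (bound_one A E hne hE hAE ha2 hq).trans ?_
      rw [← ha, div_le_div_iff₀ (by linarith) (by linarith)]
      nlinarith
    have b2 : lam ≤ (1 - 2 * α) / (4 * α) := by
      have h := average A E hE hAE (hp0.trans hplam.le) (by norm_num : (0 : ℝ) ≤ 2) 1
        (fun Z hZ => ind_var_two Z hZ) hq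
      rw [← ha, sum_range_succ, sum_range_one, pow_zero, pow_one, pow_one] at h
      have h2 : 2 * a * lam ≤ 1 / 2 - a := by linarith
      have h3 : lam ≤ (1 - 2 * a) / (4 * a) := by
        rw [le_div_iff₀ (by positivity)]
        linarith
      refine h3.trans ?_
      rw [div_le_div_iff₀ (by positivity) (by positivity)]
      nlinarith
    rcases min_choice (min ((1 - 2 * α) / (2 - 2 * α)) ((1 - 2 * α) / (4 * α)))
      (6 * (1 - 2 * α) ^ 2) with hmin | hmin
    · rcases min_choice ((1 - 2 * α) / (2 - 2 * α)) ((1 - 2 * α) / (4 * α)) with hmin' | hmin'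
      · rw [hp, hmin, hmin'] at hplam
        linarith
      · rw [hp, hmin, hmin'] at hplam
        linarith
    · -- the quadratic bound
      have hp1 : p ≤ (1 - 2 * α) / (2 - 2 * α) := (min_le_left _ _).trans (min_le_left _ _)
      have hp2 : p ≤ (1 - 2 * α) / (4 * α) := (min_le_left _ _).trans (min_le_right _ _)
      have hp3 : p = 6 * (1 - 2 * α) ^ 2 := by rw [hp, hmin]
      have hy0 : 0 ≤ 1 - 2 * α := by linarith
      have hsmall : 1 - 2 * α ≤ 0.092 := by
        by_contra hcon2
        push Not at hcon2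
        set y : ℝ := 1 - 2 * α with hy
        have hypos : 0 < y := by linarith
        rw [hp3, le_div_iff₀ (by linarith)] at hp1 hp2
        have e1 : 2 - 2 * α = 1 + y := by rw [hy]; ring
        have e2 : 4 * α = 2 * (1 - y) := by rw [hy]; ring
        rw [e1] at hp1
        rw [e2] at hp2
        have f1 : 6 * y * (1 + y) ≤ 1 := by
          have : y * (6 * y * (1 + y)) ≤ y * 1 := by linarith
          exact le_of_mul_le_mul_left this hypos
        have f2 : 12 * y * (1 - y) ≤ 1 := by
          have : y * (12 * y * (1 - y)) ≤ y * 1 := by linarith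
          exact le_of_mul_le_mul_left this hypos
        have f3 : y ≤ 0.146 := by
          by_contra h
          push Not at h
          nlinarith
        nlinarith
      have hp4 : p ≤ 0.0508 := by
        rw [hp3]
        nlinarith
      set δ : ℝ := 1 / 2 - a with hδ
      have hδ0 : 0 ≤ δ := by linarith
      have hδp : 24 * δ ^ 2 ≤ p := by
        rw [hp3]
        have h1 : 2 * δ ≤ 1 - 2 * α := by linarith
        have h2 : (2 * δ) ^ 2 ≤ (1 - 2 * α) ^ 2 := pow_le_pow_left₀ (by linarith) h1 2
        linarith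
      have hlam0 : 0 < lam := lt_of_le_of_lt hp0 hplam
      obtain ⟨j, hj⟩ := choice (lam := min lam 0.0508) (δ := δ) (lt_min hlam0 (by norm_num))
        (min_le_right _ _) hδ0 (le_min (hδp.trans hplam.le) (hδp.trans hp4))
      have h := average A E hE hAE (lt_min hlam0 (by norm_num : (0 : ℝ) < 0.0508)).le
        (ts_pos j).le (j + 2) (fun Z hZ => ind_var j Z hZ)
        (fun r => (mul_le_mul_of_nonneg_right (min_le_left _ _) hE0.le).trans (hq r))
      rw [← ha] at h
      have haδ : a = 1 / 2 - δ := by rw [hδ]; ring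
      rw [← haδ] at hj
      linarith
  obtain ⟨V, hV, hV'⟩ := exists_subspace hcov
  refine ⟨V, fun v hv => ?_, hV'⟩
  by_contra hcon
  exact hV v hv (by simp only [D, mem_sdiff, mem_univ, true_and]; exact hcon)

end Pool.Agent.Results.MP_ba46be_co.DensityCodim
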