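import Pool.Agent.LGL.Core

namespace Pool.Agent.Results.MP_ba46be_co.LogLower

open Finset Module Pointwise Pool.Agent.LGL

/-- For `0 < α ≤ 1/64` and every `n ≥ 3 log²(1/α)` there is `A ⊆ F₂ⁿ` of density at least `α` such
that every subspace contained in `A + A` has codimension at least `(1/600) log(1/α) √n`. -/
theorem result (α : ℝ) (h0 : 0 < α) (h1 : α ≤ 1 / 64) (n : ℕ)
    (hn : 3 * Real.log (1 / α) ^ 2 ≤ n) :
    ∃ A : Finset (Fin n → ZMod 2), α * 2 ^ n ≤ (A.card : ℝ) ∧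
      ∀ V : Submodule (ZMod 2) (Fin n → ZMod 2), (∀ v ∈ V, v ∈ A + A) →
        1 / 600 * Real.log (1 / α) * √n ≤ (n : ℝ) - finrank (ZMod 2) V := by
  have hl2 : 0.6931 < Real.log 2 := by have := Real.log_two_gt_d9; linarith
  have hl2' : Real.log 2 < 0.6932 := by have := Real.log_two_lt_d9; linarith
  set Λ := Real.log (1 / α) with hΛ
  have hΛ6 : 6 * Real.log 2 ≤ Λ := by
    have : Real.log 64 ≤ Real.log (1 / α) := by
      apply Real.log_le_log (by norm_num)
      rw [le_div_iff₀ h0]; linarith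
    have h64 : Real.log 64 = 6 * Real.log 2 := by
      rw [show (64 : ℝ) = 2 ^ 6 by norm_num, Real.log_pow]; norm_num
    linarith
  have hΛ4 : 4.158 < Λ := by linarith
  set L : ℝ := Λ / Real.log 2 with hL
  have hL6 : 6 ≤ L := by
    rw [hL, le_div_iff₀ (by linarith)]; exact hΛ6
  have hLΛ : L * Real.log 2 = Λ := by rw [hL]; field_simp
  -- `Y`
  obtain ⟨Y, hY1, hY2⟩ : ∃ Y : ℕ, (Y : ℝ) ≤ (L - 2) / 4 ∧ (L - 2) / 4 < Y + 1 :=
    ⟨⌊(L - 2) / 4⌋₊, Nat.floor_le (by linarith), Nat.lt_floor_add_one _⟩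
  have hY3 : 1 ≤ Y := by
    by_contra hcon
    have : Y = 0 := by omega
    rw [this] at hY2
    norm_num at hY2
    linarith
  have hY3' : (1 : ℝ) ≤ Y := by exact_mod_cast hY3
  have hY4 : L / 10 ≤ Y := by
    by_cases h : L ≤ 10
    · linarith
    · push Not at h
      linarith
  -- size of `n`
  have hn52 : (51 : ℝ) < n := by nlinarith
  have hn52' : 51 < n := by exact_mod_cast hn52
  have hsn : √(n : ℝ) ^ 2 = n := Real.sq_sqrt (by positivity)
  have hsn0 : 0 ≤ √(n : ℝ) := Real.sqrt_nonneg _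
  have hYn : (Y : ℝ) ≤ √n := by
    have h2 : Λ ≤ √n := by
      apply Real.le_sqrt_of_sq_le
      nlinarith
    have h3 : L ≤ 2 * Λ := by
      have : L * 0.6931 ≤ Λ := by rw [← hLΛ]; nlinarith
      linarith
    linarith
  -- `m`, `t`
  obtain ⟨m, hm⟩ : ∃ m, m = n / 2 := ⟨_, rfl⟩
  have hm26 : 25 ≤ m := by omega
  obtain ⟨q, hq⟩ : ∃ q, q = Nat.sqrt m := ⟨_, rfl⟩
  have hq1 : q * q ≤ m := by rw [hq]; exact Nat.sqrt_le m
  have hq2 : m < (q + 1) * (q + 1) := by rw [hq]; exact Nat.lt_succ_sqrt m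
  have hq5 : 4 ≤ q := by
    by_contra hcon
    have : q ≤ 3 := by omega
    nlinarith
  obtain ⟨t, ht⟩ : ∃ t, t = (q - 1) / 4 := ⟨_, rfl⟩
  have ht1 : 4 * t + 1 ≤ q := by omega
  have ht2 : q ≤ 4 * t + 4 := by omega
  have ht3 : 16 * t ^ 2 < m := by nlinarith
  obtain ⟨P, hP⟩ : ∃ P, P = (2 * t + 1) * Y := ⟨_, rfl⟩
  obtain ⟨k, hk⟩ : ∃ k, k = P / 8 := ⟨_, rfl⟩
  -- `P ≤ n`
  have hq2n : (q : ℝ) ≤ √n := by
    apply Real.le_sqrt_of_sq_le
    have : q * q ≤ n := by omega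
    have : (q : ℝ) * q ≤ n := by exact_mod_cast this
    nlinarith
  have hjq : (2 * (t : ℝ) + 1) ≤ q := by
    have : 2 * t + 1 ≤ q := by omega
    exact_mod_cast this
  have hPn : P ≤ n := by
    have h2 : ((P : ℕ) : ℝ) ≤ n := by
      rw [hP]
      push_cast
      calc (2 * (t : ℝ) + 1) * Y ≤ √n * √n :=
            mul_le_mul (hjq.trans hq2n) hYn (by positivity) hsn0
        _ = n := by rw [← sq]; exact hsn
    exact_mod_cast h2
  have hYP : Y ≤ P := by rw [hP]; nlinarith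
  have hk8 : 8 * k ≤ P := by omega
  have hk8' : P < 8 * k + 8 := by omega
  have hm2 : 2 * m ≤ n := by omega
  have hcount : n * k + (m + k) * (2 * t + 1) * Y + 4 * Y + 2 < n * (2 * t + 1) * Y := by
    have e1 : (m + k) * (2 * t + 1) * Y = (m + k) * P := by rw [hP]; ring
    have e2 : n * (2 * t + 1) * Y = n * P := by rw [hP]; ring
    rw [e1, e2]
    have e3 : 8 * (n * k) ≤ n * P := by nlinarith
    have e4 : 8 * (m + k) ≤ 5 * n := by omega
    have e5 : 8 * ((m + k) * P) ≤ 5 * (n * P) := by nlinarith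
    have e6 : 51 * P ≤ n * P := Nat.mul_le_mul_right _ (by omega)
    omega
  obtain ⟨A, hA1, hA2⟩ := exists_set ht3 (by omega : 1 ≤ n) hcount
  refine ⟨A, ?_, ?_⟩
  · have hA1' : (2 : ℝ) ^ n ≤ 2 ^ (4 * Y + 2) * A.card := by exact_mod_cast hA1
    have h3 : α * 2 ^ (4 * Y + 2) ≤ 1 := by
      have h4 : Real.log (α * 2 ^ (4 * Y + 2)) ≤ 0 := by
        rw [Real.log_mul h0.ne' (by positivity), Real.log_pow]
        have h5 : Real.log α = - Λ := by rw [hΛ, one_div, Real.log_inv]; ring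
        rw [h5, ← hLΛ]
        push_cast
        have : (4 * (Y : ℝ) + 2) * Real.log 2 ≤ L * Real.log 2 :=
          mul_le_mul_of_nonneg_right (by linarith) (by linarith)
        linarith
      have h6 : 0 < α * 2 ^ (4 * Y + 2) := by positivity
      by_contra hcon
      push Not at hcon
      have := Real.log_pos hcon
      linarith
    calc α * 2 ^ n ≤ α * (2 ^ (4 * Y + 2) * A.card) :=
          mul_le_mul_of_nonneg_left hA1' h0.le
      _ = (α * 2 ^ (4 * Y + 2)) * A.card := by ring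
      _ ≤ 1 * A.card := mul_le_mul_of_nonneg_right h3 (Nat.cast_nonneg _)
      _ = A.card := one_mul _
  · intro V hV
    have h2 := hA2 V hV
    have h3 : (finrank (ZMod 2) V : ℝ) + k + 1 ≤ n := by exact_mod_cast h2
    -- `P ≥ L √n / 100`
    have h4 : √(n : ℝ) / 10 ≤ 2 * (t : ℝ) + 1 := by
      have h5 : n ≤ 2 * m + 1 := by omega
      have h6 : n + 1 ≤ 2 * ((q + 1) * (q + 1)) := by omega
      have h7 : (n : ℝ) ≤ (2 * ((q : ℝ) + 1)) ^ 2 := by
        have : (n : ℝ) + 1 ≤ 2 * (((q : ℝ) + 1) * (q + 1)) := by exact_mod_cast h6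
        nlinarith
      have h8 : √(n : ℝ) ≤ 2 * ((q : ℝ) + 1) := by
        rw [show (2 * ((q : ℝ) + 1)) = √((2 * ((q : ℝ) + 1)) ^ 2) by
          rw [Real.sqrt_sq (by positivity)]]
        exact Real.sqrt_le_sqrt h7
      have h9 : (q : ℝ) ≤ 4 * t + 4 := by exact_mod_cast ht2
      linarith
    have h10 : L / 10 * (√(n : ℝ) / 10) ≤ P := by
      rw [hP]
      push_cast
      calc L / 10 * (√(n : ℝ) / 10) ≤ Y * (2 * (t : ℝ) + 1) :=
            mul_le_mul hY4 h4 (by positivity) (by positivity)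
        _ = _ := by ring
    have h11 : (P : ℝ) < 8 * k + 8 := by exact_mod_cast hk8'
    have h12 : Λ * 1.4 ≤ L := by
      have : Λ ≤ L * 0.6932 := by rw [← hLΛ]; nlinarith
      linarith
    have h13 : Λ * 1.4 * √n ≤ L * √n := mul_le_mul_of_nonneg_right h12 hsn0
    nlinarith

end Pool.Agent.Results.MP_ba46be_co.LogLower
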