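import Mathlib
import Pool.Agent.CLP.Sharp

namespace Pool.Agent.Results.MP_ba46be_co.PolynomialSupport

open Finset Pointwise

/-- Let `T` be the number of points of `F₂ⁿ` of weight greater than `(n + k) / 2`. If a point `y` has
more than `2 T` representations `y = a + b` with `a ∈ A`, `b ∈ B`, then there is a polynomial `P`
over `F₂` in `n` variables of total degree at most `k` with `P(y) = 1` and with `P(x) = 0` for every
`x ∉ A + B`. On the other hand there is a set `A` with `T` elements such that every polynomial `P`
with `P(0) = 1` and `P(x) = 0` for all `x ∉ A + A` has total degree greater than `k`. -/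
theorem result (n k : ℕ) :
    (∀ (A B : Finset (Fin n → ZMod 2)) (y : Fin n → ZMod 2),
      2 * ∑ j ∈ (range (n + 1)).filter (fun j => n + k < 2 * j), n.choose j <
        ((A ×ˢ B).filter fun q => q.1 + q.2 = y).card →
      ∃ P : MvPolynomial (Fin n) (ZMod 2), P.totalDegree ≤ k ∧ MvPolynomial.eval y P = 1 ∧
        ∀ x, x ∉ A + B → MvPolynomial.eval x P = 0) ∧
    ∃ A : Finset (Fin n → ZMod 2),
      A.card = ∑ j ∈ (range (n + 1)).filter (fun j => n + k < 2 * j), n.choose j ∧
      ∀ P : MvPolynomial (Fin n) (ZMod 2), MvPolynomial.eval 0 P = 1 →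
        (∀ x, x ∉ A + A → MvPolynomial.eval x P = 0) → k < P.totalDegree := by
  constructor
  · intro A B y h
    have hself : ∀ x : Fin n → ZMod 2, x + x = 0 := by
      intro x
      funext i
      exact CharTwo.add_self_eq_zero (x i)
    have hcard : ((A ×ˢ B).filter fun q => q.1 + q.2 = y).card ≤
        (A.filter fun a => a + y ∈ B).card := by
      apply card_le_card_of_injOn (fun q => q.1)
      · intro q hq
        simp only [coe_filter, mem_product, Set.mem_ofPred_eq] at hq
        simp only [coe_filter, Set.mem_ofPred_eq]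
        refine ⟨hq.1.1, ?_⟩
        rw [← hq.2, ← add_assoc, hself, zero_add]
        exact hq.1.2
      · intro q hq q' hq' hqq
        simp only [coe_filter, mem_product, Set.mem_ofPred_eq] at hq hq'
        have h1 : q.1 = q'.1 := hqq
        have h2 : q.1 + q.2 = q'.1 + q'.2 := hq.2.trans hq'.2.symm
        rw [h1] at h2
        exact Prod.ext h1 (add_left_cancel h2)
    have h' : 2 * (Pool.Agent.CLP.highT n ((n + k) / 2)).card <
        (A.filter fun a => a + y ∈ B).card := by
      refine lt_of_lt_of_le ?_ hcard
      rw [Pool.Agent.CLP.card_highT]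
      have hf : (range (n + 1)).filter (fun j => (n + k) / 2 < j) =
          (range (n + 1)).filter (fun j => n + k < 2 * j) := by
        apply filter_congr
        intro j _
        omega
      rw [hf]
      exact h
    obtain ⟨F, hF, hy, hsupp⟩ := Pool.Agent.CLP.exists_fun k A B y h'
    obtain ⟨P, hP, hP'⟩ := Pool.Agent.CLP.exists_poly hF
    refine ⟨P, hP, by rw [hP', hy], fun x hx => ?_⟩
    by_contra hne
    rw [hP'] at hne
    obtain ⟨a, ha, b, hb, hab⟩ := hsupp x hne
    apply hx
    rw [hab]
    exact add_mem_add ha hb
  · exact ⟨Pool.Agent.CLP.ball n k, Pool.Agent.CLP.card_ball n k,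
      fun P h1 h0 => Pool.Agent.CLP.ball_sharp n k P h1 h0⟩

end Pool.Agent.Results.MP_ba46be_co.PolynomialSupport
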