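import Pool.Agent.Helper70.FoldedCube

set_option autoImplicit false

namespace Pool.Agent.Results.MP_ba46be_co.SharpHyperplane

open Finset Pointwise Pool.Agent.Helper70.FC

variable {n : ℕ}

private lemma z2 (a : ZMod 2) : a = 0 ∨ a = 1 := by
  revert a; decide

private lemma z2_ne {a : ZMod 2} (h : a ≠ 0) : a = 1 := (z2 a).resolve_left h

private lemma vadd_self (a : Fin n → ZMod 2) : a + a = 0 := by
  funext i; exact CharTwo.add_self_eq_zero _

/-- the sum over a symmetric difference -/
private lemma sum_symmDiff {ι : Type*} [DecidableEq ι] (d : ι → Fin n → ZMod 2)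
    (S T : Finset ι) : ∑ i ∈ symmDiff S T, d i = ∑ i ∈ S, d i + ∑ i ∈ T, d i := by
  have h1 : ∑ i ∈ S, d i = ∑ i ∈ S \ T, d i + ∑ i ∈ S ∩ T, d i := by
    rw [add_comm]; exact (Finset.sum_inter_add_sum_sdiff S T d).symm
  have h2 : ∑ i ∈ T, d i = ∑ i ∈ T \ S, d i + ∑ i ∈ S ∩ T, d i := by
    rw [inter_comm, add_comm]; exact (Finset.sum_inter_add_sum_sdiff T S d).symm
  have h3 : ∑ i ∈ symmDiff S T, d i = ∑ i ∈ S \ T, d i + ∑ i ∈ T \ S, d i := by
    rw [symmDiff_def, sup_eq_union, sum_union disjoint_sdiff_sdiff]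
  rw [h1, h2, h3]
  have h4 := vadd_self (∑ i ∈ S ∩ T, d i)
  calc ∑ i ∈ S \ T, d i + ∑ i ∈ T \ S, d i
      = ∑ i ∈ S \ T, d i + ∑ i ∈ T \ S, d i + (∑ i ∈ S ∩ T, d i + ∑ i ∈ S ∩ T, d i) := by
        rw [h4, add_zero]
    _ = _ := by abel

/-- if no linear functional is equal to one on `D` then `D` contains an odd circuit -/
private lemma exists_odd (D : Finset (Fin n → ZMod 2))
    (hD : ∀ r : (Fin n → ZMod 2) →ₗ[ZMod 2] ZMod 2, ∃ d ∈ D, r d = 0) :
    ∃ T ⊆ D, Odd T.card ∧ ∑ d ∈ T, d = 0 := by
  classical
  set v : (Fin n → ZMod 2) → (Fin n → ZMod 2) × ZMod 2 := fun d => (d, 1) with hv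
  have hmem : ((0 : Fin n → ZMod 2), (1 : ZMod 2)) ∈
      Submodule.span (ZMod 2) (v '' (D : Set (Fin n → ZMod 2))) := by
    by_contra hc
    obtain ⟨f, hf, hf'⟩ := Submodule.exists_dual_map_eq_bot_of_notMem hc inferInstance
    obtain ⟨d, hd, hrd⟩ := hD (f.comp (LinearMap.inl (ZMod 2) (Fin n → ZMod 2) (ZMod 2)))
    have h1 : f (v d) = 0 := by
      have : f (v d) ∈ (Submodule.span (ZMod 2) (v '' (D : Set (Fin n → ZMod 2)))).map f :=
        Submodule.mem_map_of_mem (Submodule.subset_span ⟨d, hd, rfl⟩)
      rw [hf'] at this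
      exact (Submodule.mem_bot (ZMod 2)).1 this
    have h2 : v d = (d, 0) + (0, 1) := by rw [hv]; simp
    rw [h2, map_add] at h1
    have h3 : f (d, 0) = 0 := by simpa using hrd
    rw [h3, zero_add] at h1
    exact hf h1
  rw [Submodule.mem_span_image_finset_iff_exists_fun'] at hmem
  obtain ⟨c, hc⟩ := hmem
  refine ⟨D.filter (fun d => c d ≠ 0), filter_subset _ _, ?_, ?_⟩
  · have h1 := congrArg Prod.snd hc
    rw [Prod.snd_sum] at h1
    have h2 : ∑ d ∈ D, (c d • v d).2 = ((D.filter (fun d => c d ≠ 0)).card : ZMod 2) := by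
      rw [card_filter]
      push_cast
      apply sum_congr rfl
      intro d _
      rcases z2 (c d) with h | h <;> simp [h, hv]
    rw [h2] at h1
    have h3 : ((D.filter (fun d => c d ≠ 0)).card : ZMod 2) = 1 := h1
    rcases Nat.even_or_odd (D.filter (fun d => c d ≠ 0)).card with h | h
    · exfalso
      rw [(ZMod.natCast_eq_zero_iff_even).2 h] at h3
      exact zero_ne_one h3
    · exact h
  · have h1 : ∑ d ∈ D, (c d • v d).1 = 0 := by
      rw [← Prod.fst_sum, hc]
    rw [sum_filter]
    refine Eq.trans ?_ h1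
    apply sum_congr rfl
    intro d _
    rcases z2 (c d) with h | h <;> simp [h, hv]

/-- ... and a minimal one -/
private lemma exists_circuit (D : Finset (Fin n → ZMod 2))
    (hD : ∀ r : (Fin n → ZMod 2) →ₗ[ZMod 2] ZMod 2, ∃ d ∈ D, r d = 0) :
    ∃ T ⊆ D, Odd T.card ∧ ∑ d ∈ T, d = 0 ∧ ∀ U ⊂ T, ∑ d ∈ U, d = 0 → U = ∅ := by
  classical
  obtain ⟨T0, hT0, hodd0, hsum0⟩ := exists_odd D hD
  have hne : (D.powerset.filter (fun T => Odd T.card ∧ ∑ d ∈ T, d = 0)).Nonempty :=
    ⟨T0, by simp [hT0, hodd0, hsum0]⟩
  obtain ⟨T, hT, hmin⟩ := exists_min_image _ (fun T => T.card) hne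
  rw [mem_filter, mem_powerset] at hT
  refine ⟨T, hT.1, hT.2.1, hT.2.2, ?_⟩
  intro U hU hUs
  by_contra hUne
  have hcard := card_lt_card hU
  rcases Nat.even_or_odd U.card with he | ho
  · have h1 : ∑ d ∈ T \ U, d = 0 := by
      have := sum_sdiff (f := fun d : Fin n → ZMod 2 => d) hU.1
      rw [hUs, add_zero, hT.2.2] at this
      exact this
    have h2 : (T \ U).card = T.card - U.card := card_sdiff_of_subset hU.1
    have h3 : Odd (T \ U).card := by
      rw [h2]; exact Nat.Odd.sub_even hcard.le hT.2.1 he
    have h4 := hmin (T \ U) (by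
      rw [mem_filter, mem_powerset]
      exact ⟨sdiff_subset.trans hT.1, h3, h1⟩)
    have h5 : 0 < U.card := card_pos.2 (nonempty_iff_ne_empty.2 hUne)
    omega
  · have h4 := hmin U (by
      rw [mem_filter, mem_powerset]
      exact ⟨hU.1.trans hT.1, ho, hUs⟩)
    omega

/-- the averaging argument -/
private lemma average (A : Finset (Fin n → ZMod 2)) (j : ℕ) (d : Fin (2 * j) → Fin n → ZMod 2)
    (h1 : ∀ i, d i ∉ A + A) (h2 : ∑ i, d i ∉ A + A) :
    2 * A.card * 4 ^ j + 2 ^ n * (2 * j).choose j ≤ 2 ^ n * 4 ^ j := by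
  classical
  set sg : Finset (Fin (2 * j)) → Fin n → ZMod 2 := fun S => ∑ i ∈ S, d i with hsg
  have hB : ∀ x : Fin n → ZMod 2,
      2 * (univ.filter fun S => x + sg S ∈ A).card + (2 * j).choose j ≤ 4 ^ j := by
    intro x
    apply folded
    · intro S hS i hS'
      rw [mem_filter] at hS hS'
      apply h1 i
      have e : d i = (x + sg S) + (x + sg (symmDiff S {i})) := by
        rw [hsg]
        simp only
        rw [sum_symmDiff, sum_singleton]
        have e1 := vadd_self x
        have e2 := vadd_self (∑ i ∈ S, d i)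
        calc d i = (x + x) + (∑ i ∈ S, d i + ∑ i ∈ S, d i) + d i := by rw [e1, e2]; simp
          _ = _ := by abel
      rw [e]
      exact add_mem_add hS.2 hS'.2
    · intro S hS hS'
      rw [mem_filter] at hS hS'
      apply h2
      have e : ∑ i, d i = (x + sg S) + (x + sg Sᶜ) := by
        rw [hsg]
        simp only
        rw [← sum_add_sum_compl S]
        have e1 := vadd_self x
        calc ∑ i ∈ S, d i + ∑ i ∈ Sᶜ, d i = (x + x) + (∑ i ∈ S, d i + ∑ i ∈ Sᶜ, d i) := by
              rw [e1]; simp
          _ = _ := by abel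
      rw [e]
      exact add_mem_add hS.2 hS'.2
  have hsum : ∑ x : Fin n → ZMod 2, (univ.filter fun S => x + sg S ∈ A).card
      = 4 ^ j * A.card := by
    have e1 : ∀ x : Fin n → ZMod 2, (univ.filter fun S => x + sg S ∈ A).card
        = ∑ S, if x + sg S ∈ A then 1 else 0 := by
      intro x; rw [card_filter]
    simp_rw [e1]
    rw [sum_comm]
    have e2 : ∀ S, ∑ x : Fin n → ZMod 2, (if x + sg S ∈ A then 1 else 0) = A.card := by
      intro S
      rw [← card_filter]
      apply card_bij (fun x _ => x + sg S)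
      · intro x hx; exact (mem_filter.1 hx).2
      · intro x _ y _ h; exact add_right_cancel h
      · intro y hy
        refine ⟨y - sg S, ?_, by simp⟩
        rw [mem_filter]
        exact ⟨mem_univ _, by simpa using hy⟩
    simp_rw [e2]
    rw [sum_const, card_univ, Fintype.card_finset, Fintype.card_fin, pow_mul]
    norm_num
  have htot : ∑ x : Fin n → ZMod 2, (2 * (univ.filter fun S => x + sg S ∈ A).card
      + (2 * j).choose j) ≤ ∑ _x : Fin n → ZMod 2, 4 ^ j := sum_le_sum fun x _ => hB x
  rw [sum_add_distrib, ← mul_sum, hsum, sum_const, sum_const, card_univ] at htot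
  simp only [Fintype.card_fun, ZMod.card, Fintype.card_fin, smul_eq_mul] at htot
  calc 2 * A.card * 4 ^ j + 2 ^ n * (2 * j).choose j
      = 2 * (4 ^ j * A.card) + 2 ^ n * (2 * j).choose j := by ring
    _ ≤ _ := htot

private lemma central_le (j k : ℕ) :
    (2 * (j + k)).choose (j + k) ≤ 4 ^ k * (2 * j).choose j := by
  induction k with
  | zero => simp
  | succ k ih =>
    have h := Nat.succ_mul_centralBinom_succ (j + k)
    unfold Nat.centralBinom at h
    have h1 : (j + k + 1) * (2 * (j + k + 1)).choose (j + k + 1)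
        ≤ (j + k + 1) * (4 * (2 * (j + k)).choose (j + k)) := by
      rw [h]
      nlinarith [Nat.zero_le ((2 * (j + k)).choose (j + k))]
    have h2 := Nat.le_of_mul_le_mul_left h1 (Nat.succ_pos _)
    rw [show j + (k + 1) = j + k + 1 by ring, pow_succ]
    calc (2 * (j + k + 1)).choose (j + k + 1) ≤ 4 * (2 * (j + k)).choose (j + k) := h2
      _ ≤ 4 * (4 ^ k * (2 * j).choose j) := Nat.mul_le_mul_left 4 ih
      _ = _ := by ring

/-- the first half -/
private theorem upper (A : Finset (Fin n → ZMod 2))
    (hA : 2 ^ n < 2 * A.card + 2 ^ (n - 2 * (n / 2)) * (2 * (n / 2)).choose (n / 2)) :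
    ∃ V : Submodule (ZMod 2) (Fin n → ZMod 2),
      (∀ v ∈ V, v ∈ A + A) ∧ n ≤ Module.finrank (ZMod 2) V + 1 := by
  classical
  by_contra hcon
  push Not at hcon
  set D : Finset (Fin n → ZMod 2) := (A + A)ᶜ with hDdef
  have hD : ∀ r : (Fin n → ZMod 2) →ₗ[ZMod 2] ZMod 2, ∃ d ∈ D, r d = 0 := by
    intro r
    by_contra hr
    push Not at hr
    have h1 := hcon (LinearMap.ker r) (by
      intro v hv
      by_contra hvA
      exact hr v (by rw [hDdef, mem_compl]; exact hvA) hv)
    have h2 := LinearMap.finrank_range_add_finrank_ker r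
    have h3 : Module.finrank (ZMod 2) (LinearMap.range r) ≤ 1 := by
      have := Submodule.finrank_le (LinearMap.range r)
      simpa using this
    rw [Module.finrank_fin_fun] at h2
    omega
  obtain ⟨T, hTD, hodd, hsum, hmin⟩ := exists_circuit D hD
  obtain ⟨j, hj⟩ := hodd
  -- enumerate
  let e : Fin (2 * j + 1) ≃ T := (Fintype.equivFinOfCardEq (by simpa using hj)).symm
  let dd : Fin (2 * j + 1) → Fin n → ZMod 2 := fun i => (e i).1
  have hdd : ∀ i, dd i ∉ A + A := by
    intro i
    have := hTD (e i).2
    rw [hDdef, mem_compl] at this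
    exact this
  have hinj : Function.Injective dd := fun a b h => e.injective (Subtype.ext h)
  have himg : univ.image dd = T := by
    ext x
    rw [mem_image]
    constructor
    · rintro ⟨i, _, rfl⟩; exact (e i).2
    · intro hx; exact ⟨e.symm ⟨x, hx⟩, mem_univ _, by simp [dd]⟩
  have hall : ∑ i, dd i = 0 := by
    rw [← hsum, ← himg, sum_image (fun a _ b _ h => hinj h)]
  let d : Fin (2 * j) → Fin n → ZMod 2 := fun i => dd i.castSucc
  have hlast : ∑ i, d i = dd (Fin.last _) := by
    rw [Fin.sum_univ_castSucc] at hall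
    have := eq_neg_of_add_eq_zero_left hall
    rw [this]
    funext i
    exact CharTwo.neg_eq _
  have hav := average A j d (fun i => hdd _) (by rw [hlast]; exact hdd _)
  -- `2 j ≤ n`
  have hle : 2 * j ≤ n := by
    have hinj2 : Function.Injective (fun S : Finset (Fin (2 * j)) => ∑ i ∈ S, d i) := by
      intro S S' hSS
      simp only at hSS
      have h0 : ∑ i ∈ symmDiff S S', d i = 0 := by
        rw [sum_symmDiff, hSS, vadd_self]
      have h1 : ∑ x ∈ (symmDiff S S').image d, x = 0 := by
        rw [sum_image]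
        · exact h0
        · intro a _ b _ h
          exact Fin.castSucc_injective _ (hinj h)
      have h2 : (symmDiff S S').image d ⊂ T := by
        rw [ssubset_iff_of_subset]
        · refine ⟨dd (Fin.last _), (e _).2, ?_⟩
          intro h
          rw [mem_image] at h
          obtain ⟨i, _, hi⟩ := h
          have := hinj hi
          exact absurd this (Fin.castSucc_lt_last i).ne
        · intro x hx
          rw [mem_image] at hx
          obtain ⟨i, _, rfl⟩ := hx
          exact (e _).2
      have h3 := hmin _ h2 h1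
      rw [image_eq_empty] at h3
      exact symmDiff_eq_bot.1 h3
    have h4 := Fintype.card_le_of_injective _ hinj2
    simp only [Fintype.card_finset, Fintype.card_fin, Fintype.card_fun, ZMod.card] at h4
    exact (Nat.pow_le_pow_iff_right (by norm_num)).1 h4
  -- conclusion
  obtain ⟨k, hk⟩ : ∃ k, n / 2 = j + k := ⟨n / 2 - j, by omega⟩
  rw [hk] at hA
  have hn : (2 : ℕ) ^ n = 2 ^ (n - 2 * (j + k)) * 4 ^ (j + k) := by
    rw [show (4 : ℕ) = 2 ^ 2 by norm_num, ← pow_mul, ← pow_add]
    congr 1
    omega
  have hc := central_le j k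
  set p := (2 : ℕ) ^ (n - 2 * (j + k)) with hp
  have hp0 : 0 < p := by positivity
  have h4 : 0 < (4 : ℕ) ^ (j + k) := by positivity
  have key : 2 * A.card * 4 ^ (j + k) + 2 ^ n * (2 * (j + k)).choose (j + k)
      ≤ 2 ^ n * 4 ^ (j + k) := by
    calc 2 * A.card * 4 ^ (j + k) + 2 ^ n * (2 * (j + k)).choose (j + k)
        ≤ 2 * A.card * 4 ^ (j + k) + 2 ^ n * (4 ^ k * (2 * j).choose j) := by
          gcongr
      _ = 4 ^ k * (2 * A.card * 4 ^ j + 2 ^ n * (2 * j).choose j) := by rw [pow_add]; ring
      _ ≤ 4 ^ k * (2 ^ n * 4 ^ j) := Nat.mul_le_mul_left _ hav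
      _ = _ := by rw [pow_add]; ring
  have key2 : (2 * A.card + p * (2 * (j + k)).choose (j + k)) * 4 ^ (j + k)
      ≤ 2 ^ n * 4 ^ (j + k) := by
    calc (2 * A.card + p * (2 * (j + k)).choose (j + k)) * 4 ^ (j + k)
        = 2 * A.card * 4 ^ (j + k) + (p * 4 ^ (j + k)) * (2 * (j + k)).choose (j + k) := by ring
      _ = 2 * A.card * 4 ^ (j + k) + 2 ^ n * (2 * (j + k)).choose (j + k) := by rw [← hn]
      _ ≤ _ := key
  have := Nat.le_of_mul_le_mul_right key2 h4
  omega

/-- number of ones among the first `2 (n/2)` coordinates -/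
private def wt (x : Fin n → ZMod 2) : ℕ :=
  (univ.filter fun i : Fin n => i.val < 2 * (n / 2) ∧ x i = 1).card

private def idx (n : ℕ) : Finset (Fin n) := univ.filter fun i => i.val < 2 * (n / 2)

private lemma card_idx (n : ℕ) : (idx n).card = 2 * (n / 2) := by
  unfold idx
  have h : 2 * (n / 2) ≤ n := by omega
  have := Fin.card_filter_val_lt (n := n) (m := 2 * (n / 2))
  rw [this]
  omega

private lemma wt_add_compl (x : Fin n → ZMod 2) : wt x + wt (x + 1) = 2 * (n / 2) := by
  rw [← card_idx n]
  unfold wt idx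
  rw [← card_union_of_disjoint]
  · congr 1
    ext i
    simp only [mem_union, mem_filter, mem_univ, true_and, Pi.add_apply, Pi.one_apply]
    constructor
    · rintro (h | h) <;> exact h.1
    · intro h
      rcases z2 (x i) with h' | h'
      · exact Or.inr ⟨h, by rw [h']; decide⟩
      · exact Or.inl ⟨h, h'⟩
  · rw [disjoint_filter]
    rintro i _ ⟨_, h1⟩ ⟨_, h2⟩
    simp only [Pi.add_apply, Pi.one_apply, h1] at h2
    exact absurd h2 (by decide)

private lemma wt_add_le (x y : Fin n → ZMod 2) : wt (x + y) ≤ wt x + wt y := by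
  unfold wt
  refine (card_le_card ?_).trans (card_union_le _ _)
  intro i
  simp only [mem_union, mem_filter, mem_univ, true_and, Pi.add_apply]
  rintro ⟨h, h1⟩
  rcases z2 (x i) with h' | h'
  · right; refine ⟨h, ?_⟩; rw [h', zero_add] at h1; exact h1
  · left; exact ⟨h, h'⟩

/-- number of vectors with exactly half of the first coordinates equal to one -/
private lemma card_mid (n : ℕ) :
    (univ.filter fun x : Fin n → ZMod 2 => wt x = n / 2).card
      = 2 ^ (n - 2 * (n / 2)) * (2 * (n / 2)).choose (n / 2) := by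
  classical
  have h : (univ.filter fun x : Fin n → ZMod 2 => wt x = n / 2).card
      = ((idx n)ᶜ.powerset ×ˢ powersetCard (n / 2) (idx n)).card := by
    refine card_bij' (fun x _ => (univ.filter fun i => i ∉ idx n ∧ x i = 1,
        univ.filter fun i => i ∈ idx n ∧ x i = 1))
      (fun p _ => fun i => if i ∈ p.1 ∨ i ∈ p.2 then 1 else 0) ?_ ?_ ?_ ?_
    · intro x hx
      rw [mem_filter] at hx
      rw [mem_product, mem_powerset, mem_powersetCard]
      refine ⟨?_, ?_, ?_⟩
      · intro i hi
        rw [mem_filter] at hi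
        rw [mem_compl]; exact hi.2.1
      · intro i hi
        rw [mem_filter] at hi
        exact hi.2.1
      · rw [← hx.2]
        unfold wt
        congr 1
        ext i
        simp only [mem_filter, mem_univ, true_and, idx]
    · rintro ⟨S, T⟩ hp
      rw [mem_product, mem_powerset, mem_powersetCard] at hp
      obtain ⟨hS, hT, hc⟩ := hp
      simp only at hS hT hc
      rw [mem_filter]
      refine ⟨mem_univ _, ?_⟩
      rw [← hc]
      unfold wt
      congr 1
      ext i
      simp only [mem_filter, mem_univ, true_and]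
      constructor
      · rintro ⟨h1, h2⟩
        by_contra hiT
        by_cases hiS : i ∈ S
        · have := hS hiS
          rw [mem_compl] at this
          exact this (by unfold idx; rw [mem_filter]; exact ⟨mem_univ _, h1⟩)
        · rw [if_neg (by tauto)] at h2
          exact absurd h2 (by decide)
      · intro hiT
        have := hT hiT
        unfold idx at this
        rw [mem_filter] at this
        exact ⟨this.2, by rw [if_pos (Or.inr hiT)]⟩
    · intro x hx
      funext i
      simp only [mem_filter, mem_univ, true_and]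
      rcases z2 (x i) with h' | h'
      · simp [h']
      · simp [h', em']
    · rintro ⟨S, T⟩ hp
      rw [mem_product, mem_powerset, mem_powersetCard] at hp
      obtain ⟨hS, hT, hc⟩ := hp
      simp only at hS hT hc
      ext i
      · simp only [mem_filter, mem_univ, true_and]
        constructor
        · rintro ⟨h1, h2⟩
          by_contra hiS
          by_cases hiT : i ∈ T
          · exact h1 (hT hiT)
          · rw [if_neg (by tauto)] at h2
            exact absurd h2 (by decide)
        · intro hiS
          exact ⟨mem_compl.1 (hS hiS), by rw [if_pos (Or.inl hiS)]⟩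
      · simp only [mem_filter, mem_univ, true_and]
        constructor
        · rintro ⟨h1, h2⟩
          by_contra hiT
          by_cases hiS : i ∈ S
          · exact (mem_compl.1 (hS hiS)) h1
          · rw [if_neg (by tauto)] at h2
            exact absurd h2 (by decide)
        · intro hiT
          exact ⟨hT hiT, by rw [if_pos (Or.inr hiT)]⟩
  rw [h, card_product, card_powerset, card_powersetCard, card_compl, Fintype.card_fin, card_idx]

/-- the second half -/
private theorem lower (n : ℕ) : ∃ A : Finset (Fin n → ZMod 2),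
    2 * A.card + 2 ^ (n - 2 * (n / 2)) * (2 * (n / 2)).choose (n / 2) = 2 ^ n ∧
    ¬ ∃ V : Submodule (ZMod 2) (Fin n → ZMod 2),
      (∀ v ∈ V, v ∈ A + A) ∧ n ≤ Module.finrank (ZMod 2) V + 1 := by
  classical
  refine ⟨univ.filter fun x => wt x < n / 2, ?_, ?_⟩
  · have h1 : (univ.filter fun x : Fin n → ZMod 2 => wt x < n / 2).card
        = (univ.filter fun x : Fin n → ZMod 2 => n / 2 < wt x).card := by
      apply card_bij (fun x _ => x + 1)
      · intro x hx
        rw [mem_filter] at hx ⊢
        have := wt_add_compl x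
        exact ⟨mem_univ _, by omega⟩
      · intro x _ y _ h; exact add_right_cancel h
      · intro y hy
        rw [mem_filter] at hy
        refine ⟨y + 1, ?_, ?_⟩
        · rw [mem_filter]
          have := wt_add_compl y
          exact ⟨mem_univ _, by omega⟩
        · rw [add_assoc, vadd_self, add_zero]
    have h2 : (univ.filter fun x : Fin n → ZMod 2 => wt x < n / 2).card
        + (univ.filter fun x : Fin n → ZMod 2 => n / 2 < wt x).card
        + (univ.filter fun x : Fin n → ZMod 2 => wt x = n / 2).card = 2 ^ n := by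
      have e : (univ : Finset (Fin n → ZMod 2)).card = 2 ^ n := by
        rw [card_univ]; simp
      rw [← e, ← card_union_of_disjoint, ← card_union_of_disjoint]
      · congr 1
        ext x
        simp only [mem_union, mem_filter, mem_univ, true_and, iff_true]
        omega
      · rw [disjoint_left]
        intro x hx hx'
        simp only [mem_union, mem_filter, mem_univ, true_and] at hx hx'
        omega
      · rw [disjoint_left]
        intro x hx hx'
        simp only [mem_filter, mem_univ, true_and] at hx hx'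
        omega
    rw [card_mid] at h2
    omega
  · rintro ⟨V, hV, hdim⟩
    have hwt : ∀ v ∈ V, wt v + 2 ≤ 2 * (n / 2) := by
      intro v hv
      obtain ⟨a, ha, b, hb, rfl⟩ := mem_add.1 (hV v hv)
      rw [mem_filter] at ha hb
      have := wt_add_le a b
      omega
    have hcod : ∀ u v, u ∉ V → v ∉ V → u + v ∈ V := by
      intro u v hu hv
      have hq := Submodule.finrank_quotient_add_finrank V
      rw [Module.finrank_fin_fun] at hq
      have hq1 : Module.finrank (ZMod 2) ((Fin n → ZMod 2) ⧸ V) ≤ 1 := by omega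
      obtain ⟨w, hw⟩ := finrank_le_one_iff.1 hq1
      obtain ⟨c, hc⟩ := hw (Submodule.Quotient.mk u)
      obtain ⟨c', hc'⟩ := hw (Submodule.Quotient.mk v)
      have hc1 : c = 1 := by
        apply z2_ne
        rintro rfl
        rw [zero_smul] at hc
        exact hu ((Submodule.Quotient.mk_eq_zero V).1 hc.symm)
      have hc1' : c' = 1 := by
        apply z2_ne
        rintro rfl
        rw [zero_smul] at hc'
        exact hv ((Submodule.Quotient.mk_eq_zero V).1 hc'.symm)
      rw [← Submodule.Quotient.mk_eq_zero, Submodule.Quotient.mk_add, ← hc, ← hc', hc1, hc1',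
        one_smul, ← two_smul (ZMod 2)]
      have : (2 : ZMod 2) = 0 := by decide
      rw [this, zero_smul]
    have h0 := hwt 0 V.zero_mem
    have hJ : 1 ≤ n / 2 := by omega
    -- the all ones vector has weight `2 (n/2)`
    have w0 : wt (0 : Fin n → ZMod 2) = 0 := by
      unfold wt
      rw [card_eq_zero, filter_eq_empty_iff]
      rintro i _ ⟨_, h⟩
      exact absurd h (by simp)
    have w1 : wt (1 : Fin n → ZMod 2) = 2 * (n / 2) := by
      have := wt_add_compl (0 : Fin n → ZMod 2)
      rw [zero_add, w0] at this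
      omega
    have h1V : (1 : Fin n → ZMod 2) ∉ V := by
      intro h
      have := hwt 1 h
      omega
    have hi : ∀ i : Fin n, i.val < 2 * (n / 2) → (Pi.single i 1 : Fin n → ZMod 2) ∈ V := by
      intro i hi
      have h2 : (Pi.single i 1 + 1 : Fin n → ZMod 2) ∉ V := by
        intro h
        have h3 := hwt _ h
        have h4 := wt_add_compl (Pi.single i 1 : Fin n → ZMod 2)
        have h5 : wt (Pi.single i 1 : Fin n → ZMod 2) ≤ 1 := by
          unfold wt
          have : (univ.filter fun k : Fin n => k.val < 2 * (n / 2) ∧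
              (Pi.single i 1 : Fin n → ZMod 2) k = 1) ⊆ {i} := by
            intro k hk
            rw [mem_filter] at hk
            rw [mem_singleton]
            by_contra hne
            rw [Pi.single_eq_of_ne hne] at hk
            exact absurd hk.2.2 (by decide)
          exact (card_le_card this).trans (by simp)
        omega
      have h3 := hcod _ _ h1V h2
      have e : (1 : Fin n → ZMod 2) + (Pi.single i 1 + 1) = Pi.single i 1 := by
        have := vadd_self (1 : Fin n → ZMod 2)
        calc (1 : Fin n → ZMod 2) + (Pi.single i 1 + 1) = Pi.single i 1 + (1 + 1) := by abel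
          _ = _ := by rw [this, add_zero]
      rwa [e] at h3
    have hsumV : ∑ i ∈ idx n, (Pi.single i 1 : Fin n → ZMod 2) ∈ V := by
      apply Submodule.sum_mem
      intro i hi'
      unfold idx at hi'
      rw [mem_filter] at hi'
      exact hi i hi'.2
    have h6 := hwt _ hsumV
    have h7 : wt (∑ i ∈ idx n, (Pi.single i 1 : Fin n → ZMod 2)) = 2 * (n / 2) := by
      rw [← card_idx n]
      unfold wt
      congr 1
      ext k
      simp only [mem_filter, mem_univ, true_and]
      have e : (∑ i ∈ idx n, (Pi.single i 1 : Fin n → ZMod 2)) k = if k ∈ idx n then 1 else 0 := by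
        rw [Finset.sum_apply]
        simp [Pi.single_apply]
      rw [e]
      unfold idx
      simp only [mem_filter, mem_univ, true_and]
      constructor
      · rintro ⟨h, _⟩; exact h
      · intro h; exact ⟨h, by rw [if_pos h]⟩
    omega

/-- The exact density threshold for a hyperplane in `A + A`. -/
theorem result (n : ℕ) :
    (∀ A : Finset (Fin n → ZMod 2),
      2 ^ n < 2 * A.card + 2 ^ (n - 2 * (n / 2)) * (2 * (n / 2)).choose (n / 2) →
      ∃ V : Submodule (ZMod 2) (Fin n → ZMod 2),
        (∀ v ∈ V, v ∈ A + A) ∧ n ≤ Module.finrank (ZMod 2) V + 1) ∧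
    ∃ A : Finset (Fin n → ZMod 2),
      2 * A.card + 2 ^ (n - 2 * (n / 2)) * (2 * (n / 2)).choose (n / 2) = 2 ^ n ∧
      ¬ ∃ V : Submodule (ZMod 2) (Fin n → ZMod 2),
        (∀ v ∈ V, v ∈ A + A) ∧ n ≤ Module.finrank (ZMod 2) V + 1 :=
  ⟨fun A hA => upper A hA, lower n⟩

end Pool.Agent.Results.MP_ba46be_co.SharpHyperplane
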